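import Pool.Agent.L7h97.Hg.Space

/-!
# The hedgehog has no minors with cycles surviving the deletion of a vertex and an edge
-/

set_option autoImplicit false

namespace Pool.Agent.L7h97.HgS

open Set

/-- For every vertex `z` and edge `ab` some nonempty set of vertices misses `z`, does not contain both
`a` and `b`, and induces a subgraph of minimum degree at least two. -/
def Q {V : Type} (D : SimpleGraph V) : Prop :=
  (∃ a b, D.Adj a b) ∧ ∀ z a b : V, D.Adj a b → ∃ T : Finset V, T.Nonempty ∧ z ∉ T ∧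
    ¬ (a ∈ T ∧ b ∈ T) ∧ ∀ u ∈ T, ∃ v ∈ T, ∃ w ∈ T, v ≠ w ∧ D.Adj u v ∧ D.Adj u w

theorem Q_iso {V W : Type} {D : SimpleGraph V} {E : SimpleGraph W} (e : SimpleGraph.Iso D E)
    (h : Q E) : Q D := by
  classical
  refine ⟨?_, ?_⟩
  · obtain ⟨a, b, hab⟩ := h.1
    exact ⟨e.symm a, e.symm b, e.symm.map_rel_iff.mpr hab⟩
  · intro z a b hab
    obtain ⟨T, hT, hz, h1, h2⟩ := h.2 (e z) (e a) (e b) (e.map_rel_iff.mpr hab)
    have hm : ∀ v, v ∈ T.map e.symm.toEquiv.toEmbedding ↔ e v ∈ T := by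
      intro v
      rw [Finset.mem_map]
      constructor
      · rintro ⟨w, hw, rfl⟩
        have : e (e.symm w) = w := e.apply_symm_apply w
        change e (e.symm w) ∈ T
        rwa [this]
      · intro hv
        exact ⟨e v, hv, e.symm_apply_apply v⟩
    refine ⟨T.map e.symm.toEquiv.toEmbedding, hT.map, ?_, ?_, ?_⟩
    · rw [hm]; exact hz
    · rw [hm, hm]; exact h1
    · intro u hu
      rw [hm] at hu
      obtain ⟨v, hv, w, hw, hvw, h3, h4⟩ := h2 (e u) hu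
      refine ⟨e.symm v, (hm _).mpr ?_, e.symm w, (hm _).mpr ?_, ?_, ?_, ?_⟩
      · rw [e.apply_symm_apply]; exact hv
      · rw [e.apply_symm_apply]; exact hw
      · intro h; exact hvw (e.symm.injective h)
      · rw [← e.map_rel_iff, e.apply_symm_apply]; exact h3
      · rw [← e.map_rel_iff, e.apply_symm_apply]; exact h4

set_option synthInstance.maxSize 1024 in
set_option synthInstance.maxHeartbeats 400000 in
theorem Q_five : Q (⊤ : SimpleGraph (Fin 5)) := by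
  refine ⟨⟨0, 1, by simp⟩, ?_⟩
  have key : ∀ (z a b : Fin 5), ∃ T : Finset (Fin 5),
      T.Nonempty ∧ z ∉ T ∧ ¬ (a ∈ T ∧ b ∈ T) ∧
      ∀ u ∈ T, ∃ v ∈ T, ∃ w ∈ T, v ≠ w ∧ u ≠ v ∧ u ≠ w := by
    intro z a b
    refine ⟨(Finset.univ.erase z).erase a, ?_⟩
    revert z a b
    decide
  intro z a b _
  obtain ⟨T, h1, h2, h3, h4⟩ := key z a b
  refine ⟨T, h1, h2, h3, fun u hu => ?_⟩
  obtain ⟨v, hv, w, hw, h5, h6, h7⟩ := h4 u hu
  exact ⟨v, hv, w, hw, h5, by simpa using h6, by simpa using h7⟩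

set_option synthInstance.maxSize 1024 in
set_option synthInstance.maxHeartbeats 400000 in
theorem Q_bip : Q (completeBipartiteGraph (Fin 3) (Fin 3)) := by
  refine ⟨⟨Sum.inl 0, Sum.inr 0, by simp⟩, ?_⟩
  intro z a b hab
  have key : ∀ (z : Fin 3 ⊕ Fin 3) (a b : Fin 3), ∃ T : Finset (Fin 3 ⊕ Fin 3),
      T.Nonempty ∧ z ∉ T ∧ ¬ (Sum.inl a ∈ T ∧ Sum.inr b ∈ T) ∧
      ∀ u ∈ T, ∃ v ∈ T, ∃ w ∈ T, v ≠ w ∧ (u.isLeft ≠ v.isLeft) ∧ (u.isLeft ≠ w.isLeft) := by
    intro z a b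
    refine ⟨(Finset.univ.erase z).erase (if z.isLeft then Sum.inr b else Sum.inl a), ?_⟩
    revert z a b
    decide
  have hadj : ∀ u v : Fin 3 ⊕ Fin 3, u.isLeft ≠ v.isLeft →
      (completeBipartiteGraph (Fin 3) (Fin 3)).Adj u v := by
    intro u v
    rcases u with u | u <;> rcases v with v | v <;> simp
  have hmain : ∀ (z : Fin 3 ⊕ Fin 3) (a b : Fin 3), ∃ T : Finset (Fin 3 ⊕ Fin 3),
      T.Nonempty ∧ z ∉ T ∧ ¬ (Sum.inl a ∈ T ∧ Sum.inr b ∈ T) ∧
      ∀ u ∈ T, ∃ v ∈ T, ∃ w ∈ T, v ≠ w ∧ (completeBipartiteGraph (Fin 3) (Fin 3)).Adj u v ∧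
        (completeBipartiteGraph (Fin 3) (Fin 3)).Adj u w := by
    intro z a b
    obtain ⟨T, h1, h2, h3, h4⟩ := key z a b
    refine ⟨T, h1, h2, h3, fun u hu => ?_⟩
    obtain ⟨v, hv, w, hw, h5, h6, h7⟩ := h4 u hu
    exact ⟨v, hv, w, hw, h5, hadj _ _ h6, hadj _ _ h7⟩
  rcases a with a | a <;> rcases b with b | b
  · simp at hab
  · exact hmain z a b
  · obtain ⟨T, h1, h2, h3, h4⟩ := hmain z b a
    exact ⟨T, h1, h2, fun h => h3 ⟨h.2, h.1⟩, h4⟩
  · simp at hab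

theorem no_minor {V : Type} (D : SimpleGraph V) (hQ : Q D) (B : V → Set Hg) (P : V → V → Set Hg)
    (hB : ∀ v, IsConnected (B v)) (hBB : ∀ v v', v ≠ v' → Disjoint (B v) (B v'))
    (hP : ∀ u w, D.Adj u w → P u w = P w u ∧
              ∃ g : unitInterval → Hg, Continuous g ∧ Function.Injective g ∧
                Set.range g = P u w ∧ g 0 ∈ B u ∧ g 1 ∈ B w ∧
                P u w ∩ (⋃ v, B v) = {g 0, g 1})
    (hPP : ∀ u w u' w', D.Adj u w → D.Adj u' w' → s(u, w) ≠ s(u', w') →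
              Disjoint (P u w) (P u' w'))
    (hPB : ∀ u w v, D.Adj u w → v ≠ u → v ≠ w → Disjoint (P u w) (B v)) : False := by
  classical
  obtain ⟨⟨a0, b0, hab0⟩, hQ⟩ := hQ
  -- the bad vertex
  obtain ⟨z, hz⟩ : ∃ z, ∀ v, v ≠ z → ctr ∉ B v := by
    by_cases h : ∃ z, ctr ∈ B z
    · obtain ⟨z, hz⟩ := h
      exact ⟨z, fun v hv hc => (Set.disjoint_left.mp (hBB v z hv) hc) hz⟩
    · push Not at h
      exact ⟨a0, fun v _ => h v⟩
  -- the bad edge
  obtain ⟨a, b, hab, hbad⟩ : ∃ a b, D.Adj a b ∧ ∀ u w, D.Adj u w → s(u, w) ≠ s(a, b) →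
      ctr ∉ P u w := by
    by_cases h : ∃ a b, D.Adj a b ∧ ctr ∈ P a b
    · obtain ⟨a, b, hab, hc⟩ := h
      exact ⟨a, b, hab, fun u w huw hne hc' => (Set.disjoint_left.mp (hPP u w a b huw hab hne) hc') hc⟩
    · push Not at h
      exact ⟨a0, b0, hab0, fun u w huw _ => h u w huw⟩
  obtain ⟨T, hT, hzT, habT, hdeg⟩ := hQ z a b hab
  have hBT : ∀ v ∈ T, ctr ∉ B v := fun v hv => hz v (fun h => hzT (h ▸ hv))
  have hPT : ∀ u ∈ T, ∀ w ∈ T, D.Adj u w → ctr ∉ P u w := by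
    intro u hu w hw huw
    refine hbad u w huw fun h => ?_
    rw [Sym2.eq_iff] at h
    rcases h with ⟨rfl, rfl⟩ | ⟨rfl, rfl⟩
    · exact habT ⟨hu, hw⟩
    · exact habT ⟨hw, hu⟩
  choose x hx using fun v => (hB v).nonempty
  obtain ⟨u, hu, hmin⟩ := T.exists_min_image (fun v => (x v).t) hT
  obtain ⟨v, hv, w, hw, hvw, huv, huw⟩ := hdeg u hu
  -- the union is connected
  have hU : ∀ w, D.Adj u w → IsPreconnected (B u ∪ P u w ∪ B w) := by
    intro w huw
    obtain ⟨_, g, hg, _, hgr, h0, h1, _⟩ := hP u w huw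
    have hPc : IsPreconnected (P u w) := by
      rw [← hgr]
      exact isPreconnected_range hg
    refine IsPreconnected.union (g 1) (Or.inr (by rw [← hgr]; exact ⟨1, rfl⟩)) h1
      (IsPreconnected.union (g 0) h0 (by rw [← hgr]; exact ⟨0, rfl⟩) (hB u).isPreconnected hPc)
      (hB w).isPreconnected
  have hUc : ∀ w ∈ T, D.Adj u w → ctr ∉ B u ∪ P u w ∪ B w := by
    intro w hw huw h
    rcases h with (h | h) | h
    · exact hBT u hu h
    · exact hPT u hu w hw huw h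
    · exact hBT w hw h
  have key : ∀ v w, v ∈ T → w ∈ T → v ≠ w → D.Adj u v → D.Adj u w → (x v).t ≤ (x w).t →
      False := by
    intro v w hv hw hvw huv huw hle
    have h1 : (x v).i = (x u).i :=
      idx_const (hU v huv) (hUc v hv huv) (Or.inr (hx v)) (Or.inl (Or.inl (hx u)))
    have h2 := between (hU w huw) (hUc w hw huw) (x := x u) (y := x w) (p := x v)
      (Or.inl (Or.inl (hx u))) (Or.inr (hx w)) h1 (hmin v hv) hle
    rcases h2 with (h | h) | h
    · exact Set.disjoint_left.mp (hBB u v huv.ne) h (hx v)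
    · exact Set.disjoint_left.mp (hPB u w v huw huv.ne' hvw) h (hx v)
    · exact Set.disjoint_left.mp (hBB w v hvw.symm) h (hx v)
  rcases le_total (x v).t (x w).t with h | h
  · exact key v w hv hw hvw huv huw h
  · exact key w v hw hv hvw.symm huw huv h

end Pool.Agent.L7h97.HgS
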