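import Mathlib

/-!
# Hedgehogs

The hedgehog with one spine `[0, ∞)` for every subset of the plane. It is a length space and a tree, and it
has points at mutual distance `≥ R`, for every `R`, more than there are points in the plane.
-/

set_option autoImplicit false

namespace Pool.Agent.L7h97.HgS

open Set

/-- the index set of the spines: larger than the plane -/
abbrev I : Type := Set (ℝ × ℝ)

/-- A point of the hedgehog: a spine and a distance from the centre. -/
@[ext] structure Hg where
  i : I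
  t : ℝ
  nn : 0 ≤ t
  h0 : t = 0 → i = ∅

/-- the centre -/
def ctr : Hg := ⟨∅, 0, le_rfl, fun _ => rfl⟩

theorem eq_ctr {x : Hg} (h : x.t = 0) : x = ctr := Hg.ext (x.h0 h) h

open Classical in
noncomputable instance : Dist Hg := ⟨fun x y => if x.i = y.i then |x.t - y.t| else x.t + y.t⟩

theorem dist_same {x y : Hg} (h : x.i = y.i) : dist x y = |x.t - y.t| := if_pos h
theorem dist_ne {x y : Hg} (h : x.i ≠ y.i) : dist x y = x.t + y.t := if_neg h

noncomputable instance : MetricSpace Hg where
  dist_self x := by rw [dist_same rfl]; simp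
  dist_comm x y := by
    by_cases h : x.i = y.i
    · rw [dist_same h, dist_same h.symm, abs_sub_comm]
    · rw [dist_ne h, dist_ne (Ne.symm h), add_comm]
  dist_triangle x y z := by
    have hx := x.nn; have hy := y.nn; have hz := z.nn
    by_cases h1 : x.i = y.i
    · by_cases h2 : y.i = z.i
      · rw [dist_same h1, dist_same h2, dist_same (h1.trans h2)]
        exact abs_sub_le _ _ _
      · rw [dist_same h1, dist_ne h2, dist_ne (fun h => h2 (h1.symm.trans h))]
        have := le_abs_self (x.t - y.t)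
        linarith
    · by_cases h2 : y.i = z.i
      · rw [dist_ne h1, dist_same h2, dist_ne (fun h => h1 (h.trans h2.symm))]
        have := neg_abs_le (y.t - z.t)
        linarith
      · rw [dist_ne h1, dist_ne h2]
        by_cases h3 : x.i = z.i
        · rw [dist_same h3]
          have := abs_sub_le x.t 0 z.t
          rw [sub_zero, zero_sub, abs_neg, abs_of_nonneg hx, abs_of_nonneg hz] at this
          linarith
        · rw [dist_ne h3]
          linarith
  eq_of_dist_eq_zero := by
    intro x y h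
    have hx := x.nn; have hy := y.nn
    by_cases h1 : x.i = y.i
    · rw [dist_same h1] at h
      exact Hg.ext h1 (by linarith [abs_eq_zero.mp h])
    · rw [dist_ne h1] at h
      have h2 : x.t = 0 := by linarith
      have h3 : y.t = 0 := by linarith
      rw [eq_ctr h2, eq_ctr h3]

theorem lip_t (x y : Hg) : |x.t - y.t| ≤ dist x y := by
  have hx := x.nn; have hy := y.nn
  by_cases h1 : x.i = y.i
  · rw [dist_same h1]
  · rw [dist_ne h1]
    have := abs_sub_le x.t 0 y.t
    rw [sub_zero, zero_sub, abs_neg, abs_of_nonneg hx, abs_of_nonneg hy] at this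
    linarith

theorem continuous_t : Continuous (fun x : Hg => x.t) := by
  refine (LipschitzWith.of_dist_le_mul (K := 1) fun x y => ?_).continuous
  rw [Real.dist_eq]
  simpa using lip_t x y

open Classical in
/-- the line through the centre along the spines `i` (negative part) and `j` (positive part) -/
noncomputable def G (i j : I) (v : ℝ) : Hg :=
  ⟨if v = 0 then ∅ else if v < 0 then i else j, |v|, abs_nonneg v, fun h => by
    rw [if_pos (abs_eq_zero.mp h)]⟩

theorem G_lip (i j : I) (v w : ℝ) : dist (G i j v) (G i j w) ≤ |v - w| := by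
  by_cases h : (G i j v).i = (G i j w).i
  · rw [dist_same h]
    exact abs_abs_sub_abs_le v w
  · rw [dist_ne h]
    change |v| + |w| ≤ |v - w|
    rcases lt_trichotomy v 0 with hv | hv | hv
    · rcases lt_trichotomy w 0 with hw | hw | hw
      · exact absurd (by simp [G, hv, hw, hv.ne, hw.ne]) h
      · subst hw; simp
      · rw [abs_of_neg hv, abs_of_pos hw, abs_of_neg (by linarith)]; linarith
    · subst hv; simp
    · rcases lt_trichotomy w 0 with hw | hw | hw
      · rw [abs_of_pos hv, abs_of_neg hw, abs_of_pos (by linarith)]; linarith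
      · subst hw; simp
      · exact absurd (by simp [G, hv.not_gt, hw.not_gt, hv.ne', hw.ne']) h

theorem exists_line (x y : Hg) : ∃ (i j : I) (a b : ℝ), G i j a = x ∧ G i j b = y ∧
    |b - a| = dist x y := by
  have hx := x.nn; have hy := y.nn
  by_cases h : x.i = y.i
  · refine ⟨x.i, x.i, x.t, y.t, ?_, ?_, ?_⟩
    · refine Hg.ext ?_ (abs_of_nonneg hx)
      by_cases h1 : x.t = 0
      · rw [x.h0 h1]; simp [G]
      · simp [G, h1]
    · refine Hg.ext ?_ (abs_of_nonneg hy)
      by_cases h1 : y.t = 0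
      · rw [y.h0 h1]; simp [G, h1]
      · simp [G, h1, h]
    · rw [dist_same h, abs_sub_comm]
  · refine ⟨x.i, y.i, -x.t, y.t, ?_, ?_, ?_⟩
    · refine Hg.ext ?_ (by simp [G, abs_of_nonneg hx])
      by_cases h1 : x.t = 0
      · rw [x.h0 h1]; simp [G, h1]
      · have : 0 < x.t := lt_of_le_of_ne hx (Ne.symm h1)
        simp [G, h1, this]
    · refine Hg.ext ?_ (abs_of_nonneg hy)
      by_cases h1 : y.t = 0
      · rw [y.h0 h1]; simp [G, h1]
      · simp [G, h1, hy.not_gt]
    · rw [dist_ne h, abs_of_nonneg (by linarith)]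
      ring

theorem length_space (x y : Hg) (ε : ℝ) (hε : 0 < ε) : ∃ γ : Path x y,
    eVariationOn (fun t : unitInterval => γ t) Set.univ ≤ ENNReal.ofReal (dist x y + ε) := by
  obtain ⟨i, j, a, b, ha, hb, hab⟩ := exists_line x y
  obtain ⟨C, hC⟩ : ∃ C : NNReal, (C : ℝ) = |b - a| := ⟨⟨|b - a|, abs_nonneg _⟩, rfl⟩
  have hL : LipschitzWith C (fun u : ℝ => G i j (a + u * (b - a))) := by
    refine LipschitzWith.of_dist_le_mul fun u v => ?_
    refine (G_lip i j _ _).trans ?_
    rw [Real.dist_eq, hC, ← abs_mul]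
    apply le_of_eq
    congr 1
    ring
  refine ⟨⟨⟨fun u => G i j (a + u * (b - a)), hL.continuous.comp continuous_subtype_val⟩,
    by simpa using ha, by simpa using hb⟩, ?_⟩
  have h1 := (hL.lipschitzOnWith (s := Set.univ)).comp_eVariationOn_le
    (g := fun u : unitInterval => (u : ℝ)) (s := Set.univ) (fun _ _ => trivial)
  have h2 : eVariationOn (fun u : unitInterval => (u : ℝ)) Set.univ ≤ ENNReal.ofReal 1 := by
    have h3 : MonotoneOn (fun u : unitInterval => (u : ℝ)) Set.univ := fun u _ v _ huv => huv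
    have h4 := (h3.eVariationOn_eq (a := 0) (b := 1) trivial trivial).le
    have h5 : (Set.univ ∩ Set.Icc 0 1 : Set unitInterval) = Set.univ := by
      ext u
      simp only [Set.mem_inter_iff, Set.mem_univ, true_and, Set.mem_Icc, iff_true]
      exact ⟨u.2.1, u.2.2⟩
    rw [h5] at h4
    simpa using h4
  refine h1.trans ?_
  calc _ ≤ (C : ENNReal) * ENNReal.ofReal 1 := by gcongr
    _ = ENNReal.ofReal |b - a| := by
      rw [ENNReal.ofReal_one, mul_one, ← hC, ENNReal.ofReal_coe_nnreal]
    _ ≤ _ := ENNReal.ofReal_le_ofReal (by rw [hab]; linarith)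

/-- A connected set which avoids the centre lies on one spine. -/
theorem idx_const {S : Set Hg} (hS : IsPreconnected S) (hc : ctr ∉ S) {x y : Hg} (hx : x ∈ S)
    (hy : y ∈ S) : x.i = y.i := by
  by_contra hne
  have ht : ∀ z ∈ S, z.t ≠ 0 := fun z hz h => hc (by rw [← eq_ctr h]; exact hz)
  have key : ∀ z w : Hg, z.t ≠ 0 → dist w z < z.t → w.t ≠ 0 ∧ w.i = z.i := by
    intro z w hz hd
    have h1 : w.i = z.i := by
      by_contra h
      rw [dist_ne h] at hd
      have := w.nn
      linarith
    refine ⟨fun h => ?_, h1⟩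
    rw [dist_same h1, h, zero_sub, abs_neg, abs_of_nonneg z.nn] at hd
    exact lt_irrefl _ hd
  have hU : IsOpen {z : Hg | z.t ≠ 0 ∧ z.i = x.i} := by
    rw [Metric.isOpen_iff]
    intro z hz
    refine ⟨z.t, lt_of_le_of_ne z.nn (Ne.symm hz.1), fun w hw => ?_⟩
    obtain ⟨h1, h2⟩ := key z w hz.1 hw
    exact ⟨h1, h2.trans hz.2⟩
  have hV : IsOpen {z : Hg | z.t ≠ 0 ∧ z.i ≠ x.i} := by
    rw [Metric.isOpen_iff]
    intro z hz
    refine ⟨z.t, lt_of_le_of_ne z.nn (Ne.symm hz.1), fun w hw => ?_⟩
    obtain ⟨h1, h2⟩ := key z w hz.1 hw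
    exact ⟨h1, fun h => hz.2 (h2.symm.trans h)⟩
  obtain ⟨z, _, hz1, hz2⟩ := hS _ _ hU hV (fun z hz => by
    by_cases h : z.i = x.i
    · exact Or.inl ⟨ht z hz, h⟩
    · exact Or.inr ⟨ht z hz, h⟩) ⟨x, hx, ht x hx, rfl⟩ ⟨y, hy, ht y hy, Ne.symm hne⟩
  exact hz2.2 hz1.2

/-- Between two points of a connected set which avoids the centre. -/
theorem between {S : Set Hg} (hS : IsPreconnected S) (hc : ctr ∉ S) {x y p : Hg} (hx : x ∈ S)
    (hy : y ∈ S) (hi : p.i = x.i) (h1 : x.t ≤ p.t) (h2 : p.t ≤ y.t) : p ∈ S := by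
  have h3 := (hS.image (fun x : Hg => x.t) continuous_t.continuousOn).ordConnected
  obtain ⟨q, hq, hqt⟩ := h3.out ⟨x, hx, rfl⟩ ⟨y, hy, rfl⟩ ⟨h1, h2⟩
  have h4 : q.i = p.i := (idx_const hS hc hq hx).trans hi.symm
  have : q = p := Hg.ext h4 hqt
  rwa [← this]

end Pool.Agent.L7h97.HgS
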